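import Pool.Agent.H53.UK.Targets

/-!
SCU: if few candidates cover a spread set, then one of them is inside the cube (helper75).
-/

set_option autoImplicit false

namespace Pool.Agent.H75.UK

open Finset
open Pool.Agent.H53.UK

open Classical in
theorem pf_SCU (hSVU : T_SVU) : T_SCU := by
  intro n k ι _ H d s₀ w hH p Q hS hp T hT hC
  by_contra hcon
  push Not at hcon
  have h1 : ∀ c ∈ T, (Q.filter fun y => VC (H c) y).card * 2 ^ d ≤ Q.card := by
    intro c hc
    have h2 := hSVU H d s₀ w hH p Q hS hp c (hcon c hc)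
    have h3 : Nat.card {y // y ∈ Q ∧ VC (H c) y} = (Q.filter fun y => VC (H c) y).card :=
      Nat.subtype_card _ fun y => mem_filter
    rw [h3] at h2
    exact h2
  have h2 : Q ⊆ T.biUnion fun c => Q.filter fun y => VC (H c) y := by
    intro y hy
    obtain ⟨c, hc, hv⟩ := hC y hy
    exact mem_biUnion.2 ⟨c, hc, mem_filter.2 ⟨hy, hv⟩⟩
  have h3 : Q.card ≤ ∑ c ∈ T, (Q.filter fun y => VC (H c) y).card :=
    (card_le_card h2).trans card_biUnion_le
  have h4 : Q.card * 2 ^ d ≤ T.card * Q.card := by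
    calc Q.card * 2 ^ d ≤ (∑ c ∈ T, (Q.filter fun y => VC (H c) y).card) * 2 ^ d :=
          Nat.mul_le_mul_right _ h3
      _ = ∑ c ∈ T, (Q.filter fun y => VC (H c) y).card * 2 ^ d := sum_mul _ _ _
      _ ≤ ∑ _c ∈ T, Q.card := sum_le_sum h1
      _ = T.card * Q.card := by rw [sum_const, smul_eq_mul]
  have h5 : 0 < Q.card := hS.ne.card_pos
  have h6 : T.card * Q.card < 2 ^ d * Q.card := Nat.mul_lt_mul_of_pos_right hT h5
  have h7 : Q.card * 2 ^ d = 2 ^ d * Q.card := mul_comm _ _
  omega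

end Pool.Agent.H75.UK
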